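import Pool.Agent.Helper81.AO.D
import Pool.Agent.Helper60.AO.High
import Pool.Agent.Helper22.AI.Defs
import Pool.Agent.Helper99.EY.Trunc2

/-!
# AO (MP_fb29e9_nt, AlmostEveryOval v5), block D: the class of amplitudes and the high blocks for almost every sample of the analytic series
-/

open MeasureTheory Real Set Filter Topology unitInterval

set_option autoImplicit false

namespace Pool.Agent.Helper81.AO

open Pool.Agent.Helper22.AE (IsSupp ft ee rho)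
open Pool.Agent.Helper92.GC (dt sqa)
open Pool.Agent.Helper22.OV (shf)
open Pool.Agent.Helper92.AO (HiG)
open Pool.Agent.Helper27.AO (As Rap rap_exp)
open Pool.Agent.Helper99.EY (SBh)

/-- the finite theorem -/
theorem highU : HighU := fun h h1 _ hL => Pool.Agent.Helper60.AO.high_u h h1 hL

/-- the amplitudes of the analytic series -/
noncomputable def sD (l : ℕ) : ℝ := exp (-(l : ℝ))

theorem sD_rap : Rap sD := rap_exp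

theorem sD_ne (l : ℕ) : sD l ≠ 0 := (exp_pos _).ne'

/-- the choice of the thresholds and amplitudes -/
theorem diag0 : ∃ (T am : ℕ → ℕ) (e : ℝ), 0 < e ∧ e ≤ 1 / 1000 ∧ Tendsto T atTop atTop ∧
      (∀ e : ℝ, 0 < e → ∃ p₀ : ℕ, ∀ p : ℕ, p₀ ≤ p → (T p : ℝ) ≤ e * p) ∧
      (∀ p, T p ≤ p) ∧ (∀ᶠ p in atTop, p ≤ T p ^ 2) ∧
      Monotone am ∧ (∀ l, 21 * l ≤ am l) ∧ (∀ K : ℕ, ∃ l₀ : ℕ, ∀ l, l₀ ≤ l → K * l ≤ am l) ∧ (∀ p l, l ≤ T p → 2 * am l ≤ p) ∧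
      ∀ H₀ : ℝ → ℝ, ContDiff ℝ 2 H₀ → Function.Periodic H₀ (2 * π) →
        ∀ᵐ x ∂(Measure.infinitePi fun _ : ℕ => (volume : Measure (I × I))), ∃ p₀ : ℕ, ∀ p : ℕ, p₀ ≤ p →
          HiG {n | T p < n ∧ (n : ℝ) ≤ (1 / 2 + e) * p} (2 ^ p / 2) (4 * 2 ^ p) (fun n => √(2 ^ p) / ((n : ℝ) + 1) ^ 2)
            (Pool.Agent.Helper22.AE.Hx H₀ sD x) := diag highU sD_rap sD_ne

/-- the thresholds -/
noncomputable def TD : ℕ → ℕ := diag0.choose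

/-- the amplitudes -/
noncomputable def amD : ℕ → ℕ := diag0.choose_spec.choose

/-- the width of the top range -/
noncomputable def eD : ℝ := diag0.choose_spec.choose_spec.choose

private theorem spec : 0 < eD ∧ eD ≤ 1 / 1000 ∧ Tendsto TD atTop atTop ∧
      (∀ e : ℝ, 0 < e → ∃ p₀ : ℕ, ∀ p : ℕ, p₀ ≤ p → (TD p : ℝ) ≤ e * p) ∧
      (∀ p, TD p ≤ p) ∧ (∀ᶠ p in atTop, p ≤ TD p ^ 2) ∧
      Monotone amD ∧ (∀ l, 21 * l ≤ amD l) ∧ (∀ K : ℕ, ∃ l₀ : ℕ, ∀ l, l₀ ≤ l → K * l ≤ amD l) ∧ (∀ p l, l ≤ TD p → 2 * amD l ≤ p) ∧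
      ∀ H₀ : ℝ → ℝ, ContDiff ℝ 2 H₀ → Function.Periodic H₀ (2 * π) →
        ∀ᵐ x ∂(Measure.infinitePi fun _ : ℕ => (volume : Measure (I × I))), ∃ p₀ : ℕ, ∀ p : ℕ, p₀ ≤ p →
          HiG {n | TD p < n ∧ (n : ℝ) ≤ (1 / 2 + eD) * p} (2 ^ p / 2) (4 * 2 ^ p) (fun n => √(2 ^ p) / ((n : ℝ) + 1) ^ 2)
            (Pool.Agent.Helper22.AE.Hx H₀ sD x) := diag0.choose_spec.choose_spec.choose_spec

theorem eD_pos : 0 < eD := spec.1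

theorem eD_le : eD ≤ 1 / 1000 := spec.2.1

theorem TD_inf : ∀ m : ℕ, ∃ p₀ : ℕ, ∀ p : ℕ, p₀ ≤ p → m ≤ TD p := fun m =>
  eventually_atTop.1 ((spec.2.2.1 : Tendsto TD atTop atTop).eventually_ge_atTop m)

theorem TD_o : ∀ ε : ℝ, 0 < ε → ∃ p₀ : ℕ, ∀ p : ℕ, p₀ ≤ p → (TD p : ℝ) ≤ ε * p := spec.2.2.2.1

theorem TD_le : ∀ p, TD p ≤ p := spec.2.2.2.2.1

theorem TD_big : ∀ᶠ p in atTop, p ≤ TD p ^ 2 := spec.2.2.2.2.2.1

theorem amD_mono : Monotone amD := spec.2.2.2.2.2.2.1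

theorem amD_low : ∀ l, 21 * l ≤ amD l := spec.2.2.2.2.2.2.2.1

theorem amD_sup : ∀ K : ℕ, ∃ l₀ : ℕ, ∀ l, l₀ ≤ l → K * l ≤ amD l := spec.2.2.2.2.2.2.2.2.1

theorem amD_lvl : ∀ p l, l ≤ TD p → 2 * amD l ≤ p := spec.2.2.2.2.2.2.2.2.2.1

/-- the high blocks -/
theorem high_hx : ∀ H₀ : ℝ → ℝ, ContDiff ℝ 2 H₀ → Function.Periodic H₀ (2 * π) →
    ∀ᵐ x ∂(Measure.infinitePi fun _ : ℕ => (volume : Measure (I × I))), ∃ p₀ : ℕ, ∀ p : ℕ, p₀ ≤ p →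
      HiG {n | TD p < n ∧ (n : ℝ) ≤ (1 / 2 + eD) * p} (2 ^ p / 2) (4 * 2 ^ p) (fun n => √(2 ^ p) / ((n : ℝ) + 1) ^ 2)
        (Pool.Agent.Helper22.AE.Hx H₀ sD x) := spec.2.2.2.2.2.2.2.2.2.2

/-- the amplitudes as an instance of the class of helper22 -/
@[instance_reducible] noncomputable def theAmp : Pool.Agent.Helper22.AI.Amp where
  am := amD
  T := TD
  low := amD_low
  sup := fun j => by
    obtain ⟨l₀, hl₀⟩ := amD_sup j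
    refine ⟨j * l₀, fun l => ?_⟩
    rcases le_total l₀ l with h | h
    · exact (hl₀ l h).trans (Nat.le_add_right _ _)
    · exact (Nat.mul_le_mul_left j h).trans (Nat.le_add_left _ _)
  lvl := fun p => amD_lvl p (TD p) le_rfl
  big := TD_big

theorem T_inf : ∀ m : ℕ, ∃ p₀ : ℕ, ∀ p : ℕ, p₀ ≤ p → m ≤ theAmp.T p := TD_inf

theorem T_o : ∀ ε : ℝ, 0 < ε → ∃ p₀ : ℕ, ∀ p : ℕ, p₀ ≤ p → (theAmp.T p : ℝ) ≤ ε * p := TD_o

theorem am_mono : Monotone theAmp.am := amD_mono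

theorem am_lvl {p l : ℕ} (h : l ≤ theAmp.T p) : 2 * theAmp.am l ≤ p := amD_lvl p l h

/-- for every base of class `C²`, for almost every sample of the analytic series, the high blocks are small -/
theorem high_ae {H₀ : ℝ → ℝ} (h0 : ContDiff ℝ 2 H₀) (hp : Function.Periodic H₀ (2 * π)) :
    ∀ᵐ x ∂(Measure.infinitePi fun _ : ℕ => (volume : Measure (I × I))), ∃ p₀ : ℕ, ∀ p : ℕ, p₀ ≤ p →
      HiG {n | theAmp.T p < n ∧ (n : ℝ) ≤ (1 / 2 + eD) * p} (2 ^ p / 2) (4 * 2 ^ p) (fun n => √(2 ^ p) / ((n : ℝ) + 1) ^ 2)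
        (fun t => H₀ t + As sD x t) := high_hx H₀ h0 hp

/-- the form used by helper27 -/
theorem hdiag : ∀ B : ℝ, ∃ e : ℝ, 0 < e ∧ e ≤ 1 / 1000 ∧ ∀ H₀ : ℝ → ℝ, ContDiff ℝ 2 H₀ → Function.Periodic H₀ (2 * π) → (∀ t, |rho H₀ t| ≤ B) →
    ∀ᵐ x ∂(Measure.infinitePi fun _ : ℕ => (volume : Measure (I × I))), ∃ p₀ : ℕ, ∀ p : ℕ, p₀ ≤ p →
      HiG {n : ℕ | theAmp.T p < n ∧ (n : ℝ) ≤ (1 / 2 + e) * p} (2 ^ p / 2) (4 * 2 ^ p) (fun n => sqrt (2 ^ p) / ((n : ℝ) + 1) ^ 2)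
        (Pool.Agent.Helper22.AE.Hx H₀ (fun l => exp (-(l : ℝ))) x) :=
  fun _ => ⟨eD, eD_pos, eD_le, fun H₀ h0 hp _ => high_hx H₀ h0 hp⟩

/-- the form needed for the truncated formula -/
theorem sbh_of_hiG {T : ℕ → ℕ} {e : ℝ} {H : ℝ → ℝ} (h : ∃ p₀ : ℕ, ∀ p : ℕ, p₀ ≤ p →
      HiG {n | T p < n ∧ (n : ℝ) ≤ (1 / 2 + e) * p} (2 ^ p / 2) (4 * 2 ^ p) (fun n => √(2 ^ p) / ((n : ℝ) + 1) ^ 2) H) : SBh T e H := by
  intro v hv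
  obtain ⟨p₀, hp₀⟩ := h
  refine ⟨1, p₀, fun p hp n hn hn2 R hR c => ?_⟩
  have h1 := hp₀ p hp v hv n ⟨hn, hn2⟩ R hR c
  rw [one_mul]
  linarith

end Pool.Agent.Helper81.AO
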