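import Mathlib

/-!
# AO (MP_fb29e9_nt, candidate (A)), block D: the diagonal choice (pure)

`G j p` is eventually true in `p` for every `j ≥ 1`. Then there are `J p → ∞` with `G (J p) p`, `T p = p / J p` and the amplitudes `am`.
-/

open Filter Topology

set_option autoImplicit false

namespace Pool.Agent.Helper81.AO

theorem choose_J {G : ℕ → ℕ → Prop} (hG : ∀ j, 1 ≤ j → ∀ᶠ p in atTop, G j p) :
    ∃ J : ℕ → ℕ, (∀ j, ∀ᶠ p in atTop, j ≤ J p) ∧ ∀ p, 1 ≤ J p → G (J p) p := by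
  classical
  let P : ℕ → ℕ → Prop := fun p j => 1 ≤ j → ∀ p', p ≤ p' → G j p'
  refine ⟨fun p => Nat.findGreatest (P p) p, fun j => ?_, fun p hp => ?_⟩
  · rcases Nat.eq_zero_or_pos j with rfl | hj
    · exact Eventually.of_forall fun p => Nat.zero_le _
    · obtain ⟨p0, hp0⟩ := eventually_atTop.1 (hG j hj)
      filter_upwards [eventually_ge_atTop (max p0 j)] with p hp
      exact Nat.le_findGreatest ((le_max_right _ _).trans hp) fun _ p' hp' => hp0 p' ((le_max_left _ _).trans (hp.trans hp'))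
  · have h0 : P p 0 := fun h => absurd h (by norm_num)
    exact Nat.findGreatest_spec (P := P p) (Nat.zero_le p) h0 hp p le_rfl

theorem choose_T {G : ℕ → ℕ → Prop} (hG : ∀ j, 1 ≤ j → ∀ᶠ p in atTop, G j p) :
    ∃ T J am : ℕ → ℕ, (∀ j, ∀ᶠ p in atTop, j ≤ J p) ∧ (∀ p, 1 ≤ J p → G (J p) p) ∧ (∀ᶠ p in atTop, ∀ n, T p < n → p < J p * n) ∧
      Tendsto T atTop atTop ∧ (∀ e : ℝ, 0 < e → ∃ p₀ : ℕ, ∀ p : ℕ, p₀ ≤ p → (T p : ℝ) ≤ e * p) ∧ (∀ p, T p ≤ p) ∧
      (∀ᶠ p in atTop, p ≤ T p ^ 2) ∧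
      Monotone am ∧ (∀ l, 21 * l ≤ am l) ∧ (∀ K : ℕ, ∃ l₀ : ℕ, ∀ l, l₀ ≤ l → K * l ≤ am l) ∧ (∀ p l, l ≤ T p → 2 * am l ≤ p) := by
  classical
  obtain ⟨J, hJ1, hJ2⟩ := choose_J (G := fun j p => G j p ∧ j ^ 4 ≤ p) fun j hj => (hG j hj).and (eventually_ge_atTop _)
  let T : ℕ → ℕ := fun p => if J p < 42 then 0 else p / J p
  have hT42 : ∀ p, 42 ≤ J p → T p = p / J p := fun p h => if_neg (not_lt.2 h)
  have hT0 : ∀ p, J p < 42 → T p = 0 := fun p h => if_pos h
  have hTp : ∀ p, T p ≤ p := by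
    intro p
    by_cases h : J p < 42
    · exact (hT0 p h).le.trans (Nat.zero_le _)
    · rw [hT42 p (not_lt.1 h)]
      exact Nat.div_le_self _ _
  have hTJ : ∀ p, J p * T p ≤ p := by
    intro p
    by_cases h : J p < 42
    · rw [hT0 p h, mul_zero]
      exact Nat.zero_le _
    · rw [hT42 p (not_lt.1 h)]
      exact Nat.mul_div_le p (J p)
  have hTinf : Tendsto T atTop atTop := by
    rw [tendsto_atTop]
    intro b
    filter_upwards [hJ1 (max b 42)] with p hp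
    have h42 : 42 ≤ J p := (le_max_right _ _).trans hp
    rw [hT42 p h42, Nat.le_div_iff_mul_le (by omega)]
    have h3 := (hJ2 p (by omega)).2
    have h4 : b ≤ J p := (le_max_left _ _).trans hp
    calc b * J p ≤ J p * J p := Nat.mul_le_mul_right _ h4
      _ = J p ^ 2 := by ring
      _ ≤ J p ^ 4 := Nat.pow_le_pow_right (by omega) (by norm_num)
      _ ≤ p := h3
  have hTo : ∀ K : ℕ, ∃ p₀ : ℕ, ∀ p : ℕ, p₀ ≤ p → K * T p ≤ p := by
    intro K
    obtain ⟨p0, hp0⟩ := eventually_atTop.1 (hJ1 K)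
    exact ⟨p0, fun p hp => (Nat.mul_le_mul_right _ (hp0 p hp)).trans (hTJ p)⟩
  have hne : ∀ l, {p | l ≤ T p}.Nonempty := fun l => (hTinf.eventually_ge_atTop l).exists
  let q : ℕ → ℕ := fun l => sInf {p | l ≤ T p}
  have hq : ∀ l, l ≤ T (q l) := fun l => Nat.sInf_mem (hne l)
  have hqle : ∀ l p, l ≤ T p → q l ≤ p := fun l p h => Nat.sInf_le h
  have hqm : Monotone q := by
    intro a b hab
    exact hqle a (q b) (hab.trans (hq b))
  have hbig : ∀ᶠ p in atTop, p ≤ T p ^ 2 := by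
    filter_upwards [hJ1 42] with p hp
    have h3 := (hJ2 p (by omega)).2
    rw [hT42 p hp]
    by_contra h
    rw [not_le] at h
    have hJp : 0 < J p := by omega
    have h5 : p < J p * (p / J p + 1) := Nat.lt_mul_div_succ p hJp
    have h1 : 1 ≤ p / J p := by
      rw [Nat.le_div_iff_mul_le hJp, one_mul]
      exact (Nat.le_self_pow (by norm_num) _).trans h3
    obtain ⟨t, ht⟩ : ∃ t, t = p / J p := ⟨_, rfl⟩
    obtain ⟨j, hj⟩ : ∃ j, j = J p := ⟨_, rfl⟩
    rw [← ht] at h h1 h5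
    rw [← hj] at h5 h3 hp
    have h6 : p < 2 * (j * t) := by nlinarith
    have h7 : p * p < 4 * (j ^ 2 * t ^ 2) := by
      calc p * p ≤ p * (2 * (j * t)) := Nat.mul_le_mul_left _ h6.le
        _ < (2 * (j * t)) * (2 * (j * t)) := Nat.mul_lt_mul_of_pos_right h6 (by omega)
        _ = _ := by ring
    have h8 : 4 * (j ^ 2 * t ^ 2) ≤ 4 * (j ^ 2 * p) := Nat.mul_le_mul_left _ (Nat.mul_le_mul_left _ h.le)
    have h9 : p * p < p * (4 * j ^ 2) := by
      calc p * p < 4 * (j ^ 2 * t ^ 2) := h7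
        _ ≤ 4 * (j ^ 2 * p) := h8
        _ = _ := by ring
    have h10 : p < 4 * j ^ 2 := lt_of_mul_lt_mul_left h9 (Nat.zero_le _)
    have h11 : j ^ 2 * j ^ 2 < 4 * j ^ 2 := by
      calc j ^ 2 * j ^ 2 = j ^ 4 := by ring
        _ ≤ p := h3
        _ < _ := h10
    have h12 : j ^ 2 < 4 := lt_of_mul_lt_mul_right h11 (Nat.zero_le _)
    nlinarith
  refine ⟨T, J, fun l => max (21 * l) (q l / 2), hJ1, fun p hp => (hJ2 p hp).1, ?_, hTinf, ?_, hTp, hbig, ?_, fun l => le_max_left _ _, ?_, ?_⟩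
  · filter_upwards [hJ1 42] with p hp n hn
    rw [hT42 p hp, Nat.div_lt_iff_lt_mul (by omega)] at hn
    rwa [mul_comm]
  · intro e he
    obtain ⟨K, hK⟩ := exists_nat_gt (1 / e)
    obtain ⟨p0, hp0⟩ := hTo K
    refine ⟨p0, fun p hp => ?_⟩
    have h1 : (K : ℝ) * T p ≤ p := by exact_mod_cast hp0 p hp
    have h2 : 1 ≤ e * K := by
      rw [div_lt_iff₀ he] at hK
      linarith
    have h3 : (0 : ℝ) ≤ T p := Nat.cast_nonneg _
    nlinarith
  · intro a b hab
    exact max_le_max (Nat.mul_le_mul_left _ hab) (Nat.div_le_div_right (hqm hab))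
  · intro K
    obtain ⟨p0, hp0⟩ := hTo (2 * K)
    refine ⟨p0, fun l hl => le_max_of_le_right ?_⟩
    rw [Nat.le_div_iff_mul_le (by norm_num)]
    have h1 : p0 ≤ q l := (hl.trans (hq l)).trans (hTp _)
    have h2 := hp0 (q l) h1
    have h3 := Nat.mul_le_mul_left (2 * K) (hq l)
    linarith
  · intro p l hl
    have h1 := hqle l p hl
    rcases le_total (21 * l) (q l / 2) with h | h
    · show 2 * max (21 * l) (q l / 2) ≤ p
      rw [max_eq_right h]
      omega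
    · show 2 * max (21 * l) (q l / 2) ≤ p
      rw [max_eq_left h]
      by_cases h42 : J p < 42
      · rw [hT0 p h42] at hl
        omega
      · have h3 := hTJ p
        have h4 := Nat.mul_le_mul (not_lt.1 h42) hl
        linarith

end Pool.Agent.Helper81.AO
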