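import Pool.Agent.Helper22.AE.F1
import Pool.Agent.Helper22.AE.E0

/-!
# AO (MP_fb29e9_nt, candidate (A)), block D: transfer from the Gaussian measure on the head to the product measure
-/

open MeasureTheory Real Set Filter Topology unitInterval
open scoped ENNReal

set_option autoImplicit false

namespace Pool.Agent.Helper81.AO

open Pool.Agent.Helper22.AE

private lemma measurable_cmb81 (L : ℕ) :
    Measurable (fun q : (Fin L → I × I) × (ℕ → I × I) => cmb L q.1 q.2) := by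
  refine measurable_pi_iff.2 fun l => ?_
  by_cases hl : l < L
  · have h : (fun q : (Fin L → I × I) × (ℕ → I × I) => cmb L q.1 q.2 l) = fun q => q.1 ⟨l, hl⟩ := by
      funext q
      simp only [cmb, dif_pos hl]
    rw [h]
    exact (measurable_pi_apply _).comp measurable_fst
  · have h : (fun q : (Fin L → I × I) × (ℕ → I × I) => cmb L q.1 q.2 l) = fun q => q.2 (l - L) := by
      funext q
      simp only [cmb, dif_neg hl]
    rw [h]
    exact (measurable_pi_apply _).comp measurable_snd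

/-- the scaled head -/
noncomputable def sch {L : ℕ} (s : ℕ → ℝ) (h : Fin L → I × I) : (Fin L → ℝ) × (Fin L → ℝ) :=
  (fun l => s l * ((h l).1 : ℝ), fun l => s l * ((h l).2 : ℝ))

private lemma vol_le_gm {L : ℕ} {B : ℝ} {E : Set ((Fin L → ℝ) × (Fin L → ℝ))} (hE : MeasurableSet E) (hEB : ∀ w ∈ E, ‖w‖ ≤ B) :
    volume E ≤ ENNReal.ofReal (exp (π * (2 * L * B ^ 2))) * gm L E := by
  have h1 : gm L E = ∫⁻ w in E, ENNReal.ofReal (gd w) := by
    unfold gm
    exact withDensity_apply _ hE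
  have h2 : ∀ w ∈ E, ENNReal.ofReal (exp (-(π * (2 * L * B ^ 2)))) ≤ ENNReal.ofReal (gd w) := by
    intro w hw
    apply ENNReal.ofReal_le_ofReal
    unfold gd
    apply Real.exp_le_exp.2
    have hn := hEB w hw
    have ha : ∀ l : Fin L, w.1 l ^ 2 ≤ B ^ 2 := by
      intro l
      have h3 : |w.1 l| ≤ B := by
        have := norm_le_pi_norm w.1 l
        rw [Real.norm_eq_abs] at this
        exact this.trans ((norm_fst_le w).trans hn)
      rw [← sq_abs]
      exact pow_le_pow_left₀ (abs_nonneg _) h3 2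
    have hb : ∀ l : Fin L, w.2 l ^ 2 ≤ B ^ 2 := by
      intro l
      have h3 : |w.2 l| ≤ B := by
        have := norm_le_pi_norm w.2 l
        rw [Real.norm_eq_abs] at this
        exact this.trans ((norm_snd_le w).trans hn)
      rw [← sq_abs]
      exact pow_le_pow_left₀ (abs_nonneg _) h3 2
    have h4 : ∑ l : Fin L, w.1 l ^ 2 ≤ L * B ^ 2 := by
      refine (Finset.sum_le_sum fun l _ => ha l).trans_eq ?_
      rw [Finset.sum_const, Finset.card_univ, Fintype.card_fin, nsmul_eq_mul]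
    have h5 : ∑ l : Fin L, w.2 l ^ 2 ≤ L * B ^ 2 := by
      refine (Finset.sum_le_sum fun l _ => hb l).trans_eq ?_
      rw [Finset.sum_const, Finset.card_univ, Fintype.card_fin, nsmul_eq_mul]
    have hpi := Real.pi_pos
    nlinarith
  have h3 : ENNReal.ofReal (exp (-(π * (2 * L * B ^ 2)))) * volume E ≤ gm L E := by
    rw [h1, ← setLIntegral_const]
    exact setLIntegral_mono' hE h2
  have h4 : ENNReal.ofReal (exp (π * (2 * L * B ^ 2))) * (ENNReal.ofReal (exp (-(π * (2 * L * B ^ 2)))) * volume E) = volume E := by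
    rw [← mul_assoc, ← ENNReal.ofReal_mul (exp_pos _).le, ← Real.exp_add, add_neg_cancel, Real.exp_zero, ENNReal.ofReal_one, one_mul]
  rw [← h4]
  gcongr

/-- the law of the scaled head is bounded by the Gaussian measure -/
theorem head_le (L : ℕ) {s : ℕ → ℝ} (hs : ∀ l < L, s l ≠ 0) :
    ∃ D : ℝ, 0 ≤ D ∧ ∀ E : Set ((Fin L → ℝ) × (Fin L → ℝ)), MeasurableSet E →
      (Measure.pi fun _ : Fin L => (volume : Measure (I × I))) {h | sch s h ∈ E} ≤ ENNReal.ofReal D * gm L E := by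
  have h1 : MeasurePreserving (fun (q : I × I) => ((q.1 : ℝ), (q.2 : ℝ))) volume
      ((volume.restrict (Icc (0 : ℝ) 1)).prod (volume.restrict (Icc (0 : ℝ) 1))) :=
    unitInterval.measurePreserving_coe.prod unitInterval.measurePreserving_coe
  have h2 := measurePreserving_pi (fun _ : Fin L => (volume : Measure (I × I)))
    (fun _ : Fin L => ((volume.restrict (Icc (0 : ℝ) 1)).prod (volume.restrict (Icc (0 : ℝ) 1)))) (fun _ => h1)
  have h3 := measurePreserving_arrowProdEquivProdArrow ℝ ℝ (Fin L)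
    (fun _ => volume.restrict (Icc (0 : ℝ) 1)) (fun _ => volume.restrict (Icc (0 : ℝ) 1))
  have h4 := h3.comp h2
  have h5 : ((Measure.pi fun _ : Fin L => volume.restrict (Icc (0 : ℝ) 1)).prod
      (Measure.pi fun _ : Fin L => volume.restrict (Icc (0 : ℝ) 1))) =
      (volume : Measure ((Fin L → ℝ) × (Fin L → ℝ))).restrict ((pi univ fun _ => Icc (0 : ℝ) 1) ×ˢ (pi univ fun _ => Icc (0 : ℝ) 1)) := by
    rw [← Measure.restrict_pi_pi, Measure.prod_restrict]
    rfl
  let e : (Fin L → ℝ) ≃L[ℝ] (Fin L → ℝ) :=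
    ContinuousLinearEquiv.piCongrRight fun l => ContinuousLinearEquiv.unitsEquivAut ℝ (Units.mk0 (s l) (hs l l.2))
  let f : ((Fin L → ℝ) × (Fin L → ℝ)) ≃L[ℝ] ((Fin L → ℝ) × (Fin L → ℝ)) := e.prodCongr e
  have hf : ∀ w : (Fin L → ℝ) × (Fin L → ℝ), f w = ((fun l => s l * w.1 l, fun l => s l * w.2 l) : (Fin L → ℝ) × (Fin L → ℝ)) := by
    intro w
    refine Prod.ext ?_ ?_ <;>
    · funext l
      simp [f, e, mul_comm]
  have h0 : (volume : Measure ((Fin L → ℝ) × (Fin L → ℝ))).IsAddHaarMeasure := by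
    rw [Measure.volume_eq_prod]
    exact Measure.prod.instIsAddHaarMeasure _ _
  have hdet : LinearMap.det (f : ((Fin L → ℝ) × (Fin L → ℝ)) →ₗ[ℝ] ((Fin L → ℝ) × (Fin L → ℝ))) ≠ 0 :=
    (LinearEquiv.isUnit_det' f.toLinearEquiv).ne_zero
  have hmap := Measure.map_linearMap_addHaar_eq_smul_addHaar (volume : Measure ((Fin L → ℝ) × (Fin L → ℝ))) hdet
  set c : ℝ := |(LinearMap.det (f : ((Fin L → ℝ) × (Fin L → ℝ)) →ₗ[ℝ] ((Fin L → ℝ) × (Fin L → ℝ))))⁻¹| with hc
  set B : ℝ := ∑ l : Fin L, |s l| with hB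
  refine ⟨c * exp (π * (2 * L * B ^ 2)), by positivity, fun E hE => ?_⟩
  have hE' : MeasurableSet (E ∩ {w | ‖w‖ ≤ B}) := hE.inter (isClosed_le continuous_norm continuous_const).measurableSet
  have hsub : {h : Fin L → I × I | sch s h ∈ E} = {h : Fin L → I × I | sch s h ∈ E ∩ {w | ‖w‖ ≤ B}} := by
    ext h
    constructor
    · intro hh
      refine ⟨hh, ?_⟩
      have hB0 : 0 ≤ B := Finset.sum_nonneg fun l _ => abs_nonneg _
      show ‖sch s h‖ ≤ B
      have hu : ∀ (l : Fin L) (u : I), |s l * (u : ℝ)| ≤ B := by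
        intro l u
        have h6 : |s l * (u : ℝ)| ≤ |s l| := by
          rw [abs_mul]
          exact mul_le_of_le_one_right (abs_nonneg _) (abs_le.2 ⟨by linarith [u.2.1], u.2.2⟩)
        exact h6.trans (Finset.single_le_sum (f := fun l : Fin L => |s l|) (fun l _ => abs_nonneg _) (Finset.mem_univ l))
      rw [Prod.norm_def]
      refine max_le ?_ ?_
      · exact (pi_norm_le_iff_of_nonneg hB0).2 fun l => hu l _
      · exact (pi_norm_le_iff_of_nonneg hB0).2 fun l => hu l _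
    · exact fun hh => hh.1
  rw [hsub]
  have h6 : (Measure.pi fun _ : Fin L => (volume : Measure (I × I))) {h : Fin L → I × I | sch s h ∈ E ∩ {w | ‖w‖ ≤ B}} ≤
      volume (f ⁻¹' (E ∩ {w | ‖w‖ ≤ B})) := by
    have hm : MeasurableSet (f ⁻¹' (E ∩ {w | ‖w‖ ≤ B})) := f.continuous.measurable hE'
    have h7 := h4.measure_preimage hm.nullMeasurableSet
    rw [h5] at h7
    refine le_trans (le_of_eq ?_) (Measure.restrict_le_self (μ := (volume : Measure ((Fin L → ℝ) × (Fin L → ℝ)))) (s := (pi univ fun _ => Icc (0 : ℝ) 1) ×ˢ (pi univ fun _ => Icc (0 : ℝ) 1)) (f ⁻¹' (E ∩ {w | ‖w‖ ≤ B})))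
    rw [← h7]
    congr 1
    ext h
    show sch s h ∈ E ∩ {w | ‖w‖ ≤ B} ↔ f _ ∈ E ∩ {w | ‖w‖ ≤ B}
    rw [hf]
    rfl
  have h7 : volume (f ⁻¹' (E ∩ {w | ‖w‖ ≤ B})) = ENNReal.ofReal c * volume (E ∩ {w | ‖w‖ ≤ B}) := by
    have h8 := congrArg (fun μ : Measure ((Fin L → ℝ) × (Fin L → ℝ)) => μ (E ∩ {w | ‖w‖ ≤ B})) hmap
    simp only [Measure.smul_apply, smul_eq_mul] at h8
    rw [← h8]
    exact (Measure.map_apply f.continuous.measurable hE').symm
  calc _ ≤ volume (f ⁻¹' (E ∩ {w | ‖w‖ ≤ B})) := h6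
    _ = ENNReal.ofReal c * volume (E ∩ {w | ‖w‖ ≤ B}) := h7
    _ ≤ ENNReal.ofReal c * (ENNReal.ofReal (exp (π * (2 * L * B ^ 2))) * gm L (E ∩ {w | ‖w‖ ≤ B})) := by
        gcongr
        exact vol_le_gm hE' fun w hw => hw.2
    _ ≤ ENNReal.ofReal c * (ENNReal.ofReal (exp (π * (2 * L * B ^ 2))) * gm L E) := by
        gcongr
        exact inter_subset_left
    _ = _ := by
        rw [← mul_assoc, ← ENNReal.ofReal_mul (by positivity)]

/-- transfer of a bound for the head to the product measure -/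
theorem cmb_le (L : ℕ) {s : ℕ → ℝ} (hs : ∀ l < L, s l ≠ 0) :
    ∃ D : ℝ, 0 ≤ D ∧ ∀ S : Set (ℕ → I × I), MeasurableSet S → ∀ κ : ℝ, 0 ≤ κ →
      (∀ t : ℕ → I × I, ∃ E : Set ((Fin L → ℝ) × (Fin L → ℝ)), (gm L).real E ≤ κ ∧ ∀ h : Fin L → I × I, cmb L h t ∈ S → sch s h ∈ E) →
      (Measure.infinitePi fun _ : ℕ => (volume : Measure (I × I))).real S ≤ D * κ := by
  obtain ⟨D, hD, hle⟩ := head_le L hs
  refine ⟨D, hD, fun S hS κ hκ h => ?_⟩
  have hsec : ∀ t : ℕ → I × I, (Measure.pi fun _ : Fin L => (volume : Measure (I × I))) {q | cmb L q t ∈ S} ≤ ENNReal.ofReal (D * κ) := by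
    intro t
    obtain ⟨E, hE, hES⟩ := h t
    have h1 : (Measure.pi fun _ : Fin L => (volume : Measure (I × I))) {q | cmb L q t ∈ S} ≤
        (Measure.pi fun _ : Fin L => (volume : Measure (I × I))) {q | sch s q ∈ toMeasurable (gm L) E} :=
      measure_mono fun q hq => subset_toMeasurable _ _ (hES q hq)
    refine h1.trans ((hle _ (measurableSet_toMeasurable _ _)).trans ?_)
    rw [measure_toMeasurable, ENNReal.ofReal_mul hD]
    gcongr
    rw [← ofReal_measureReal]
    exact ENNReal.ofReal_le_ofReal hE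
  have h2 : (Measure.infinitePi fun _ : ℕ => (volume : Measure (I × I))) S ≤ ENNReal.ofReal (D * κ) := by
    rw [← cmb_map L, Measure.map_apply (measurable_cmb81 L) hS, Measure.prod_apply_symm ((measurable_cmb81 L) hS)]
    calc _ ≤ ∫⁻ _ : ℕ → I × I, ENNReal.ofReal (D * κ) ∂(Measure.infinitePi fun _ : ℕ => (volume : Measure (I × I))) :=
          lintegral_mono fun t => hsec t
      _ = ENNReal.ofReal (D * κ) := by
          rw [lintegral_const, measure_univ, mul_one]
  unfold Measure.real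
  exact ENNReal.toReal_le_of_le_ofReal (mul_nonneg hD hκ) h2

end Pool.Agent.Helper81.AO
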