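import Pool.Agent.Helper92.AO.F
import Pool.Agent.Helper27.AO.Ser
import Pool.Agent.Helper22.AE.F2
import Pool.Agent.Helper81.AO.Tr
import Pool.Agent.Helper81.AO.Am

/-!
# AO (MP_fb29e9_nt, candidate (A)), block D: the high blocks of almost every oval `H₀ + A(x)`, with the thresholds `T p`
-/

open MeasureTheory Real Set Filter Topology unitInterval

set_option autoImplicit false

namespace Pool.Agent.Helper81.AO

open Pool.Agent.Helper22.AE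
open Pool.Agent.Helper92.GC (dt sqa)
open Pool.Agent.Helper22.OV (shf shf_smooth shf_rho)
open Pool.Agent.Helper92.AO (HiG hiG_closed near_of_cont)
open Pool.Agent.Helper27.AO (As Rap As_cd As_per As_cont)

/-- the finite theorem (`high_u` of helper60) -/
def HighU : Prop := ∀ {ε : ℝ}, 0 < ε → ε ≤ 1 → ∀ {L : ℕ}, 2 / ε + 12 ≤ L →
  ∃ g e2 : ℝ, 0 < g ∧ g ≤ 1 / 100 ∧ 0 < e2 ∧ e2 ≤ 1 / 100 ∧ ∀ B Bd : ℝ, ∃ C R₁ : ℝ, 0 < C ∧ 1 ≤ R₁ ∧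
  ∀ H₀ : ℝ → ℝ, ContDiff ℝ 2 H₀ → Function.Periodic H₀ (2 * π) → (∀ t, |rho H₀ t| ≤ B) → ∀ R₀ : ℝ, R₁ ≤ R₀ →
  ∃ E : Set ((Fin L → ℝ) × (Fin L → ℝ)), (gm L).real E ≤ C * R₀ ^ (-g) ∧ ∀ w ∉ E, ‖w‖ ≤ Bd → ∀ n : ℕ, R₀ ^ ε ≤ (2 : ℝ) ^ n →
    (2 : ℝ) ^ (n + 1) ≤ R₀ ^ (1 / 2 + e2) → ∀ R ∈ Icc (R₀ / 2) (4 * R₀), ∀ p : ℝ × ℝ,
    IsSupp (fun t => R * (Hw H₀ w t - (p.1 * cos t + p.2 * sin t))) → ∀ c : ℝ × ℝ,
    ‖∑ k ∈ sqa (2 ^ n), ft (fun t => R * (Hw H₀ w t - (p.1 * cos t + p.2 * sin t))) k * ee (dt k c)‖ ≤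
      C * R₀ ^ (1 / 2 : ℝ) * ((2 : ℝ) ^ n) ^ (-g)

/-- the law of the coefficients -/
noncomputable def QQ : Measure (ℕ → I × I) := Measure.infinitePi fun _ : ℕ => (volume : Measure (I × I))

instance : IsProbabilityMeasure QQ := by
  unfold QQ
  infer_instance

/-- the bound for the block `n` at the scale `2^p` -/
noncomputable def bnd (p n : ℕ) : ℝ := √(2 ^ p) / ((n : ℝ) + 1) ^ 2

theorem hiG_mono {N N' : Set ℕ} {A B : ℝ} {b b' : ℕ → ℝ} {H : ℝ → ℝ} (h : HiG N A B b H) (h1 : ∀ n ∈ N', n ∈ N)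
    (h2 : ∀ n ∈ N', b n ≤ b' n) : HiG N' A B b' H :=
  fun s hs n hn R hR c => (h s hs n (h1 n hn) R hR c).trans (h2 n hn)

private lemma sum2_of_rap {s : ℕ → ℝ} (hs : Rap s) : Summable (fun l : ℕ => (l : ℝ) ^ 2 * |s l|) := hs 2

private lemma Hx_As (H₀ : ℝ → ℝ) (s : ℕ → ℝ) (x : ℕ → I × I) : Hx H₀ s x = fun θ => H₀ θ + As s x θ := rfl

/-- the set of the samples with small high blocks is closed -/
theorem good_closed {s : ℕ → ℝ} (hs : Rap s) {H₀ : ℝ → ℝ} (h0 : ContDiff ℝ 2 H₀) (hp : Function.Periodic H₀ (2 * π))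
    (N : Set ℕ) {A B : ℝ} (hA : 0 < A) (b : ℕ → ℝ) : IsClosed {x : ℕ → I × I | HiG N A B b (Hx H₀ s x)} := by
  refine hiG_closed (fun x => Hx_smooth h0 (hs 2) x) (fun x => Hx_per hp s x) ?_ N hA b
  exact near_of_cont h0 (F := fun x => As s x) (fun x => As_cd hs x 2) (As_cont hs 0) (As_cont hs 2)

private lemma rho_add81 {f g : ℝ → ℝ} (hf : ContDiff ℝ 2 f) (hg : ContDiff ℝ 2 g) (t : ℝ) :
    rho (fun θ => f θ + g θ) t = rho f t + rho g t := by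
  have d1 : ∀ f : ℝ → ℝ, ContDiff ℝ 2 f → Differentiable ℝ f := fun f hf => hf.differentiable (by norm_num)
  have d2 : ∀ f : ℝ → ℝ, ContDiff ℝ 2 f → Differentiable ℝ (deriv f) := fun f hf => by
    have h1 : ContDiff ℝ 1 (deriv f) := by
      have h := (contDiff_succ_iff_deriv (n := 1) (f := f)).1 (by
        rw [one_add_one_eq_two]
        exact hf)
      exact h.2.2
    exact h1.differentiable (by norm_num)
  have e1 : deriv (fun s => f s + g s) = fun s => deriv f s + deriv g s := by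
    funext s
    exact deriv_fun_add (d1 f hf s) (d1 g hg s)
  have e3 : deriv (deriv (fun s => f s + g s)) t = deriv (deriv f) t + deriv (deriv g) t := by
    rw [e1]
    exact deriv_fun_add (d2 f hf t) (d2 g hg t)
  unfold rho
  rw [e3]
  ring

private lemma rho_As {s : ℕ → ℝ} (hs : Rap s) : ∃ M : ℝ, 0 ≤ M ∧ ∀ (x : ℕ → I × I) (t : ℝ), |rho (As s x) t| ≤ M := by
  refine ⟨(∑' l : ℕ, 2 * ((l : ℝ) ^ 0 * |s l|)) + ∑' l : ℕ, 2 * ((l : ℝ) ^ 2 * |s l|), ?_, fun x t => ?_⟩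
  · exact add_nonneg (tsum_nonneg fun l => by positivity) (tsum_nonneg fun l => by positivity)
  · have h1 := Pool.Agent.Helper27.AO.As_bound hs x 0 t
    have h2 := Pool.Agent.Helper27.AO.As_bound hs x 2 t
    rw [iteratedDeriv_zero] at h1
    have e2 : iteratedDeriv 2 (As s x) = deriv (deriv (As s x)) := by
      rw [iteratedDeriv_succ, iteratedDeriv_one]
    rw [e2] at h2
    unfold rho
    exact (abs_add_le _ _).trans (add_le_add h1 h2)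

private lemma tail_base {s : ℕ → ℝ} (hs : Rap s) {M V : ℝ} (hM : ∀ (x : ℕ → I × I) (t : ℝ), |rho (As s x) t| ≤ M)
    {H₀ : ℝ → ℝ} (h0 : ContDiff ℝ 2 H₀) (hp : Function.Periodic H₀ (2 * π)) (hV : ∀ t, |rho H₀ t| ≤ V) (L : ℕ) (t : ℕ → I × I) :
    ∃ H₁ : ℝ → ℝ, ContDiff ℝ 2 H₁ ∧ Function.Periodic H₁ (2 * π) ∧ (∀ θ, |rho H₁ θ| ≤ V + M) ∧ ∀ h : Fin L → I × I,
      Hx H₀ s (cmb L h t) = Hw H₁ (sch s h) := by
  obtain ⟨H₁, h1, h1p, hH⟩ := Hx_cmb h0 hp (hs 2) L t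
  refine ⟨H₁, h1, h1p, fun θ => ?_, hH⟩
  have h3 : H₁ = Hx H₀ s (cmb L (fun _ => ((0 : I), (0 : I))) t) := by
    rw [hH]
    funext θ
    unfold Hw
    simp
  rw [h3, Hx_As, rho_add81 h0 (As_cd hs _ 2)]
  exact (abs_add_le _ _).trans (add_le_add (hV θ) (hM _ θ))

private lemma dec_ev {a : ℝ} (ha : 0 < a) (C : ℝ) : ∀ᶠ n : ℕ in atTop, C * ((2 : ℝ) ^ n) ^ (-a) ≤ 1 / ((n : ℝ) + 1) ^ 2 := by
  obtain ⟨q, hq⟩ : ∃ q : ℝ, q = (2 : ℝ) ^ (-a) := ⟨_, rfl⟩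
  have hq0 : 0 < q := by
    rw [hq]
    positivity
  have hq1 : q < 1 := by
    rw [hq]
    exact Real.rpow_lt_one_of_one_lt_of_neg (by norm_num) (by linarith)
  have h1 : Tendsto (fun n : ℕ => ((n : ℝ)) ^ 2 * q ^ n) atTop (𝓝 0) :=
    tendsto_pow_const_mul_const_pow_of_abs_lt_one 2 (by rw [abs_of_pos hq0]; exact hq1)
  have h2 : Tendsto (fun n : ℕ => C / q * (((n + 1 : ℕ) : ℝ) ^ 2 * q ^ (n + 1))) atTop (𝓝 (C / q * 0)) :=
    ((tendsto_add_atTop_iff_nat (f := fun n : ℕ => ((n : ℝ)) ^ 2 * q ^ n) 1).2 h1).const_mul (C / q)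
  rw [mul_zero] at h2
  filter_upwards [h2.eventually_lt_const (show (0 : ℝ) < 1 by norm_num)] with n hn
  have e1 : ((2 : ℝ) ^ n) ^ (-a) = q ^ n := by
    rw [hq, ← Real.rpow_natCast 2 n, ← Real.rpow_mul (by norm_num), ← Real.rpow_natCast ((2 : ℝ) ^ (-a)) n, ← Real.rpow_mul (by norm_num)]
    congr 1
    ring
  rw [e1, le_div_iff₀ (by positivity)]
  have e2 : C / q * (((n + 1 : ℕ) : ℝ) ^ 2 * q ^ (n + 1)) = C * q ^ n * ((n : ℝ) + 1) ^ 2 := by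
    push_cast
    field_simp
    ring
  rw [e2] at hn
  exact hn.le

private lemma two_rpow (p : ℕ) (a : ℝ) : ((2 : ℝ) ^ p) ^ a = (2 : ℝ) ^ (p * a) := by
  rw [← Real.rpow_natCast 2 p, ← Real.rpow_mul (by norm_num)]

/-- one level: the blocks `ε p ≤ n ≤ (1/2 + e) p` -/
theorem lev_all (hU : HighU) {s : ℕ → ℝ} (hs : Rap s) (hs0 : ∀ l, s l ≠ 0) {ε : ℝ} (hε : 0 < ε) (hε1 : ε ≤ 1) :
    ∃ e : ℝ, 0 < e ∧ e ≤ 1 / 1000 ∧ ∀ V : ℝ, ∀ᶠ p : ℕ in atTop, ∀ H₀ : ℝ → ℝ, ContDiff ℝ 2 H₀ → Function.Periodic H₀ (2 * π) → (∀ t, |rho H₀ t| ≤ V) →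
      QQ.real {x | ¬ HiG {n | ε * p ≤ n ∧ (n : ℝ) ≤ (1 / 2 + e) * p} (2 ^ p / 2) (4 * 2 ^ p) (bnd p) (Hx H₀ s x)} ≤ 1 / ((p : ℝ) + 1) ^ 2 := by
  obtain ⟨M, hM0, hM⟩ := rho_As hs
  obtain ⟨L, hL⟩ := exists_nat_ge (2 / ε + 12)
  obtain ⟨g, e2, hg, hg', he2, he2', hfin0⟩ := hU hε hε1 hL
  obtain ⟨D, hD, hle⟩ := cmb_le L (s := s) fun l _ => hs0 l
  refine ⟨min (1 / 1000) (e2 / 2), lt_min (by norm_num) (by linarith), min_le_left _ _, fun V => ?_⟩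
  obtain ⟨C, R₁, hC, hR₁, hfin⟩ := hfin0 (V + M) (∑ l : Fin L, |s l|)
  have c1 : ∀ᶠ p : ℕ in atTop, R₁ ≤ (2 : ℝ) ^ p := (tendsto_pow_atTop_atTop_of_one_lt (by norm_num : (1 : ℝ) < 2)).eventually_ge_atTop R₁
  have c2 : ∀ᶠ p : ℕ in atTop, 2 / e2 ≤ (p : ℝ) := tendsto_natCast_atTop_atTop.eventually_ge_atTop _
  obtain ⟨n0, hn0⟩ := eventually_atTop.1 (dec_ev hg C)
  have c3 : ∀ᶠ p : ℕ in atTop, n0 / ε ≤ (p : ℝ) := tendsto_natCast_atTop_atTop.eventually_ge_atTop _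
  have c4 := dec_ev hg (D * C)
  filter_upwards [c1, c2, c3, c4] with p hp1 hp2 hp3 hp4 H₀ h0 hper hV
  have hA : (0 : ℝ) < 2 ^ p / 2 := by positivity
  have hcl := good_closed hs h0 hper {n | ε * p ≤ n ∧ (n : ℝ) ≤ (1 / 2 + min (1 / 1000) (e2 / 2)) * p} (B := 4 * 2 ^ p) hA (bnd p)
  have hkey := hle {x | ¬ HiG {n | ε * p ≤ n ∧ (n : ℝ) ≤ (1 / 2 + min (1 / 1000) (e2 / 2)) * p} (2 ^ p / 2) (4 * 2 ^ p) (bnd p) (Hx H₀ s x)}
    hcl.isOpen_compl.measurableSet (C * ((2 : ℝ) ^ p) ^ (-g)) (by positivity) ?_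
  · refine le_trans hkey ?_
    rw [← mul_assoc]
    exact hp4
  intro t
  obtain ⟨H₁, h1, h1p, h1B, hH⟩ := tail_base hs hM h0 hper hV L t
  obtain ⟨E, hE, hEw⟩ := hfin H₁ h1 h1p h1B (2 ^ p) hp1
  refine ⟨E, hE, fun h hh => ?_⟩
  by_contra hn
  apply hh
  have hnorm : ‖sch (L := L) s h‖ ≤ ∑ l : Fin L, |s l| := by
    have hB0 : 0 ≤ ∑ l : Fin L, |s l| := Finset.sum_nonneg fun l _ => abs_nonneg _
    have hu : ∀ (l : Fin L) (u : I), |s l * (u : ℝ)| ≤ ∑ l : Fin L, |s l| := by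
      intro l u
      have h6 : |s l * (u : ℝ)| ≤ |s l| := by
        rw [abs_mul]
        exact mul_le_of_le_one_right (abs_nonneg _) (abs_le.2 ⟨by linarith [u.2.1], u.2.2⟩)
      exact h6.trans (Finset.single_le_sum (f := fun l : Fin L => |s l|) (fun l _ => abs_nonneg _) (Finset.mem_univ l))
    rw [Prod.norm_def]
    refine max_le ?_ ?_
    · exact (pi_norm_le_iff_of_nonneg hB0).2 fun l => hu l _
    · exact (pi_norm_le_iff_of_nonneg hB0).2 fun l => hu l _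
  intro v hv n hnn R hR c
  rw [hH h] at hv ⊢
  have hb := hEw (sch s h) hn hnorm n ?_ ?_ R hR (-v.1, -v.2)
  · have he : (fun t => R * (Hw H₁ (sch s h) t - ((-v.1, -v.2).1 * cos t + (-v.1, -v.2).2 * sin t))) =
        fun t => R * shf (Hw H₁ (sch s h)) v t := by
      funext t
      unfold shf
      ring
    rw [he] at hb
    have hR0 : 0 < R := lt_of_lt_of_le hA hR.1
    have hS : IsSupp (fun t => R * shf (Hw H₁ (sch s h)) v t) := by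
      have := Pool.Agent.Helper22.LP.rot_isSupp hv hR0 0
      simpa using this
    refine (hb hS c).trans ?_
    unfold bnd
    rw [Real.sqrt_eq_rpow]
    have hnn0 : n0 ≤ n := by
      have h3 : (n0 : ℝ) ≤ n := by
        rw [div_le_iff₀ hε] at hp3
        linarith [hnn.1]
      exact_mod_cast h3
    have h4 := hn0 n hnn0
    have h5 : (0 : ℝ) ≤ ((2 : ℝ) ^ p) ^ (1 / 2 : ℝ) := by positivity
    calc C * ((2 : ℝ) ^ p) ^ (1 / 2 : ℝ) * ((2 : ℝ) ^ n) ^ (-g) = ((2 : ℝ) ^ p) ^ (1 / 2 : ℝ) * (C * ((2 : ℝ) ^ n) ^ (-g)) := by ring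
      _ ≤ ((2 : ℝ) ^ p) ^ (1 / 2 : ℝ) * (1 / ((n : ℝ) + 1) ^ 2) := mul_le_mul_of_nonneg_left h4 h5
      _ = _ := by ring
  · rw [two_rpow, ← Real.rpow_natCast 2 n]
    apply Real.rpow_le_rpow_of_exponent_le (by norm_num)
    have := hnn.1
    linarith
  · rw [two_rpow, ← Real.rpow_natCast 2 (n + 1)]
    apply Real.rpow_le_rpow_of_exponent_le (by norm_num)
    have h3 := hnn.2
    have h4 : min (1 / 1000) (e2 / 2) ≤ e2 / 2 := min_le_right _ _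
    have h5 : (0 : ℝ) ≤ p := Nat.cast_nonneg _
    rw [div_le_iff₀ he2] at hp2
    push_cast
    nlinarith

private lemma bc81 {S : ℕ → Set (ℕ → I × I)} {b : ℕ → ℝ} (hb : Summable b) (h : ∀ᶠ p in atTop, QQ.real (S p) ≤ b p) :
    ∀ᵐ x ∂QQ, ∃ p₀ : ℕ, ∀ p, p₀ ≤ p → x ∉ S p := by
  obtain ⟨p0, hp0⟩ := eventually_atTop.1 h
  have hb' : Summable fun n => b (n + p0) := (summable_nat_add_iff p0).2 hb
  have h1 : ∑' n, QQ (S (n + p0)) ≠ ⊤ := by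
    have h2 : ∑' n, QQ (S (n + p0)) ≤ ∑' n, ENNReal.ofReal (b (n + p0)) := by
      apply ENNReal.tsum_le_tsum
      intro n
      rw [← ofReal_measureReal]
      exact ENNReal.ofReal_le_ofReal (hp0 (n + p0) (Nat.le_add_left _ _))
    exact ne_top_of_le_ne_top hb'.tsum_ofReal_ne_top h2
  filter_upwards [ae_eventually_notMem h1] with x hx
  obtain ⟨N, hN⟩ := eventually_atTop.1 hx
  refine ⟨N + p0, fun p hp => ?_⟩
  have := hN (p - p0) (by omega)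
  rwa [Nat.sub_add_cancel (by omega)] at this

private lemma rho_bdd81 {H₀ : ℝ → ℝ} (h0 : ContDiff ℝ 2 H₀) (hp : Function.Periodic H₀ (2 * π)) : ∃ V : ℝ, ∀ t, |rho H₀ t| ≤ V := by
  have hc : Continuous (rho H₀) := Pool.Agent.Helper22.OV.o3_rho_cont h0
  have hd : ∀ f : ℝ → ℝ, Function.Periodic f (2 * π) → Function.Periodic (deriv f) (2 * π) := by
    intro f h s
    have h3 : (fun x => f (x + 2 * π)) = f := funext h
    calc deriv f (s + 2 * π) = deriv (fun x => f (x + 2 * π)) s := (deriv_comp_add_const _ _ _).symm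
      _ = _ := by rw [h3]
  have hper : Function.Periodic (rho H₀) (2 * π) := by
    intro s
    unfold rho
    rw [hp s, hd _ (hd _ hp) s]
  obtain ⟨C, hC⟩ := (isCompact_Icc (a := (0 : ℝ)) (b := 2 * π)).exists_bound_of_continuousOn hc.continuousOn
  refine ⟨C, fun t => ?_⟩
  obtain ⟨s, hs, he⟩ := hper.exists_mem_Ico₀ (by positivity) t
  rw [he]
  have := hC s ⟨hs.1, hs.2.le⟩
  rwa [Real.norm_eq_abs] at this

private lemma sum_sq81 : Summable fun p : ℕ => 2 / ((p : ℝ) + 1) ^ 2 := by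
  have h1 : Summable fun p : ℕ => 1 / ((p : ℝ)) ^ 2 := Real.summable_one_div_nat_pow.2 (by norm_num)
  have h2 := ((summable_nat_add_iff 1).2 h1).mul_left 2
  refine h2.congr fun p => ?_
  push_cast
  ring

/-- the high blocks of almost every oval `H₀ + A(x)`; thresholds `T` and amplitudes `am` which depend only on `s` -/
theorem diag (hU : HighU) {s : ℕ → ℝ} (hs : Rap s) (hs0 : ∀ l, s l ≠ 0) :
    ∃ (T am : ℕ → ℕ) (e : ℝ), 0 < e ∧ e ≤ 1 / 1000 ∧ Tendsto T atTop atTop ∧ (∀ e : ℝ, 0 < e → ∃ p₀ : ℕ, ∀ p : ℕ, p₀ ≤ p → (T p : ℝ) ≤ e * p) ∧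
      (∀ p, T p ≤ p) ∧ (∀ᶠ p in atTop, p ≤ T p ^ 2) ∧
      Monotone am ∧ (∀ l, 21 * l ≤ am l) ∧ (∀ K : ℕ, ∃ l₀ : ℕ, ∀ l, l₀ ≤ l → K * l ≤ am l) ∧ (∀ p l, l ≤ T p → 2 * am l ≤ p) ∧
      ∀ H₀ : ℝ → ℝ, ContDiff ℝ 2 H₀ → Function.Periodic H₀ (2 * π) →
        ∀ᵐ x ∂(Measure.infinitePi fun _ : ℕ => (volume : Measure (I × I))), ∃ p₀ : ℕ, ∀ p : ℕ, p₀ ≤ p →
          HiG {n | T p < n ∧ (n : ℝ) ≤ (1 / 2 + e) * p} (2 ^ p / 2) (4 * 2 ^ p) (fun n => √(2 ^ p) / ((n : ℝ) + 1) ^ 2) (Hx H₀ s x) := by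
  obtain ⟨T, J, am, hJ1, hJ2, hTJ, hT1, hT2, hT3, hT4, ha1, ha2, ha3, ha4⟩ := choose_T
    (G := fun j p => ∀ H₀ : ℝ → ℝ, ContDiff ℝ 2 H₀ → Function.Periodic H₀ (2 * π) → (∀ t, |rho H₀ t| ≤ j) →
      QQ.real {x | ¬ HiG {n | p < j * n ∧ (n : ℝ) ≤ p / 2} (2 ^ p / 2) (4 * 2 ^ p) (bnd p) (Hx H₀ s x)} ≤ 1 / ((p : ℝ) + 1) ^ 2) (by
    intro j hj
    have hj' : (1 : ℝ) ≤ j := by exact_mod_cast hj
    obtain ⟨e, he, -, hev⟩ := lev_all hU hs hs0 (ε := 1 / j) (by positivity) (by rw [div_le_one (by linarith)]; exact hj')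
    filter_upwards [hev (j : ℝ)] with p hp H₀ h0 hper hV
    refine le_trans (measureReal_mono ?_) (hp H₀ h0 hper hV)
    intro x hx hcon
    apply hx
    refine hiG_mono hcon ?_ fun n _ => le_rfl
    rintro n ⟨hn1, hn2⟩
    have hn1' : (p : ℝ) ≤ j * n := by exact_mod_cast hn1.le
    have hp0 : (0 : ℝ) ≤ p := Nat.cast_nonneg _
    refine ⟨?_, ?_⟩
    · rw [div_mul_eq_mul_div, one_mul, div_le_iff₀ (by linarith)]
      linarith
    · nlinarith)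
  obtain ⟨e, he, he', hev⟩ := lev_all hU hs hs0 (ε := 2 / 5) (by norm_num) (by norm_num)
  refine ⟨T, am, e, he, he', hT1, hT2, hT3, hT4, ha1, ha2, ha3, ha4, fun H₀ h0 hper => ?_⟩
  obtain ⟨V, hV⟩ := rho_bdd81 h0 hper
  obtain ⟨j0, hj0⟩ := exists_nat_ge (max V 1)
  have hbc := bc81 (S := fun p => {x | ¬ HiG {n | 2 / 5 * (p : ℝ) ≤ n ∧ (n : ℝ) ≤ (1 / 2 + e) * p} (2 ^ p / 2) (4 * 2 ^ p) (bnd p) (Hx H₀ s x)} ∪
    {x | ¬ HiG {n | p < J p * n ∧ (n : ℝ) ≤ p / 2} (2 ^ p / 2) (4 * 2 ^ p) (bnd p) (Hx H₀ s x)}) sum_sq81 (by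
    filter_upwards [hev V, hJ1 j0] with p hp hpJ
    have h1J : (1 : ℝ) ≤ j0 := (le_max_right _ _).trans hj0
    have h2J : 1 ≤ J p := le_trans (by exact_mod_cast h1J) hpJ
    have h3J : (j0 : ℝ) ≤ J p := by exact_mod_cast hpJ
    refine (measureReal_union_le _ _).trans ?_
    have h1 := hp H₀ h0 hper hV
    have h2 := hJ2 p h2J H₀ h0 hper fun t => (hV t).trans (((le_max_left _ _).trans hj0).trans h3J)
    have e : (2 : ℝ) / ((p : ℝ) + 1) ^ 2 = 1 / ((p : ℝ) + 1) ^ 2 + 1 / ((p : ℝ) + 1) ^ 2 := by ring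
    rw [e]
    exact add_le_add h1 h2)
  obtain ⟨pT, hpT⟩ := eventually_atTop.1 hTJ
  change ∀ᵐ x ∂QQ, _
  filter_upwards [hbc] with x hx
  obtain ⟨p0, hp0⟩ := hx
  refine ⟨max p0 pT, fun p hp => ?_⟩
  have h1 := hp0 p ((le_max_left _ _).trans hp)
  rw [mem_union, not_or] at h1
  simp only [mem_ofPred_eq, not_not] at h1
  intro v hv n hn R hR c
  rcases le_total (2 / 5 * (p : ℝ)) n with h | h
  · exact h1.1 v hv n ⟨h, hn.2⟩ R hR c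
  · refine h1.2 v hv n ⟨hpT p ((le_max_right _ _).trans hp) n hn.1, ?_⟩ R hR c
    have hp0 : (0 : ℝ) ≤ p := Nat.cast_nonneg _
    linarith

end Pool.Agent.Helper81.AO
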